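import Pool.Agent.R587.VL
import Pool.Agent.R587.VocRed

/-!
# Complete second-order theories with definable axiomatizations

The starting library `R587` proves, under `V = L`, the categoricity of complete recursively
axiomatized second-order theories in relational vocabularies. Here recursive sets of sentences are
replaced by sets of sentences whose Goedel numbers form, for each infinite cardinality `c` of a
model, a set of natural numbers that is definable without parameters over the class `HH c` of the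
sets that are hereditarily of cardinality at most `c`. All analytical sets (those definable over
the hereditarily countable sets) have this property.
The proofs of `same_card_df` and `card_eq_df` are adapted from `R587.same_card`, `R587.card_eq`.
-/

set_option autoImplicit false

namespace Pool.Agent.K1H65.SO

open Pool.Agent.R587
open Pool.Agent.W868 hiding Models
open ZFSet (pair)
open Cardinal

/-- The set of the natural numbers `n` with `C n` is definable, by a formula of set theory without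
parameters, over the structure `(HH c, ∈)`, where `HH c = H(c⁺)` is the class of the sets that are
hereditarily of cardinality at most `c`. -/
def DefAt (c : Cardinal.{0}) (C : ℕ → Prop) : Prop :=
  ∃ φ : Fml Empty 1, ∀ n : ℕ, Sat (HH c) Empty.elim φ ![nat n] ↔ C n

section

variable {c : Cardinal.{0}} {M : Set ZFSet.{0}}

/-- Truth in a definable class is definable. -/
theorem dfn_rel {K : Set ZFSet.{0}} (hKM : K ⊆ M)
    (hK : Dfn ∅ M fun v : Fin 1 → ZFSet.{0} => v 0 ∈ K) :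
    ∀ {n : ℕ} (φ : Fml Empty n), Dfn ∅ M fun v : Fin n → ZFSet.{0} => Sat K Empty.elim φ v
  | _, .mem (Sum.inl i) (Sum.inl j) => Dfn.mem (DfnF.proj i) (DfnF.proj j)
  | _, .eq (Sum.inl i) (Sum.inl j) => Dfn.eq (DfnF.proj i) (DfnF.proj j)
  | _, .neg φ => (dfn_rel hKM hK φ).not
  | _, .and φ ψ => (dfn_rel hKM hK φ).and (dfn_rel hKM hK ψ)
  | n, .ex φ => by
    have h1 : Dfn ∅ M fun v : Fin n → ZFSet.{0} => ∃ a ∈ M, a ∈ K ∧
        Sat K Empty.elim φ (Fin.cons a v) := by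
      apply Dfn.ex (Q := fun a (v : Fin n → ZFSet.{0}) => a ∈ K ∧
        Sat K Empty.elim φ (Fin.cons a v))
      apply Dfn.and
      · exact hK.comp ![0]
      · refine (dfn_rel hKM hK φ).congr fun v _ => ?_
        rw [Fin.cons_self_tail]
    refine h1.congr fun v _ => ?_
    constructor
    · rintro ⟨a, -, ha, h⟩
      exact ⟨a, ha, h⟩
    · rintro ⟨a, ha, h⟩
      exact ⟨a, hKM ha, ha, h⟩

/-- The hereditarily countable sets form a definable class. -/
theorem hc_sub (hM : Full c M) : HH ℵ₀ ⊆ M := by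
  intro x hx
  obtain ⟨T, h1, h2, h3⟩ := exists_tc (full_HH le_rfl) hx
  exact hM.trans (hh_of_trans hM h2 (h3.trans hM.inf)) h1

theorem hc_iff (hM : Full c M) {x : ZFSet.{0}} : x ∈ HH ℵ₀ ↔ ∃ T ∈ M, x ∈ T ∧
    (∀ y ∈ T, ∀ z ∈ y, z ∈ T) ∧ ∃ f ∈ M, IsInj T ZFSet.omega f := by
  constructor
  · intro hx
    obtain ⟨T, h1, h2, h3⟩ := exists_tc (full_HH le_rfl) hx
    have hT : T ∈ M := hh_of_trans hM h2 (h3.trans hM.inf)
    obtain ⟨f, hf⟩ := exists_isInj (x := T) (y := ZFSet.omega) (by rw [card_omega]; exact h3)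
    exact ⟨T, hT, h1, h2, f, hM.sub (hM.prod_mem hT hM.omega_mem) hf.1.1, hf⟩
  · rintro ⟨T, -, h1, h2, f, -, hf⟩
    have h3 := card_le_of_isInj hf
    rw [card_omega] at h3
    have hM0 : Full ℵ₀ (HH ℵ₀) := full_HH le_rfl
    exact hM0.trans (hh_of_trans hM0 h2 h3) h1

theorem dfn_hc (hM : Full c M) : Dfn ∅ M fun v : Fin 1 → ZFSet.{0} => v 0 ∈ HH ℵ₀ := by
  have hB := hM.base
  have h1 : Dfn ∅ M fun v : Fin 1 → ZFSet.{0} => ∃ T ∈ M, v 0 ∈ T ∧
      (∀ y ∈ T, ∀ z ∈ y, z ∈ T) ∧ ∃ f ∈ M, IsInj T ZFSet.omega f := by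
    apply Dfn.ex (Q := fun T (v : Fin 1 → ZFSet.{0}) => v 0 ∈ T ∧
      (∀ y ∈ T, ∀ z ∈ y, z ∈ T) ∧ ∃ f ∈ M, IsInj T ZFSet.omega f)
    apply Dfn.and (Dfn.mem (DfnF.proj 1) (DfnF.proj 0))
    apply Dfn.and
    · apply hB.ball (DfnF.proj 0)
      apply hB.ball (DfnF.proj 0)
      exact Dfn.mem (DfnF.proj 0) (DfnF.proj 2)
    · apply Dfn.ex
      exact hB.isInj' (DfnF.proj 1) hM.omega' (DfnF.proj 0)
  exact h1.congr fun v _ => (hc_iff hM).symm

/-- A total function as a partial function. -/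
def tot (f : ℕ → ℕ) : ℕ →. ℕ := fun n => Part.some (f n)

theorem mem_tot {f : ℕ → ℕ} {a b : ℕ} : pair (nat a) (nat b) ∈ gph (tot f) ↔ b = f a := by
  rw [pair_mem_gph]
  exact Part.mem_some_iff

theorem partrec_tot {f : ℕ → ℕ} (hf : Computable f) : Nat.Partrec (tot f) :=
  Partrec.nat_iff.1 hf.partrec

/-- Images of definable sets under recursive functions, as sets. -/
theorem dfn_image (hω : ℵ₀ ≤ c) {C : ℕ → Prop} (hC : DefAt c C) {f : ℕ → ℕ}
    (hf : Computable f) :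
    Dfn ∅ (HH c) fun v : Fin 1 → ZFSet.{0} => ∃ n, C n ∧ v 0 = nat (f n) := by
  obtain ⟨φ, hφ⟩ := hC
  have hM := full_HH hω
  have hφ' : Dfn ∅ (HH c) fun v : Fin 1 → ZFSet.{0} => Sat (HH c) Empty.elim φ v :=
    dfn_iff.2 ⟨φ, fun v _ => Iff.rfl⟩
  have h1 : Dfn ∅ (HH c) fun v : Fin 1 → ZFSet.{0} => v 0 ∈ (ZFSet.omega : ZFSet.{0}) ∧
      ∃ n ∈ (ZFSet.omega : ZFSet.{0}), Sat (HH c) Empty.elim φ ![n] ∧
        pair n (v 0) ∈ gph (tot f) := by
    apply Dfn.and (Dfn.mem (DfnF.proj 0) hM.omega')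
    apply hM.base.bex hM.omega'
    apply Dfn.and
    · refine (hφ'.comp ![0]).congr fun v _ => ?_
      have : (fun i => v ((![0] : Fin 1 → Fin _) i)) = ![v 0] := by
        funext i
        fin_cases i
        rfl
      rw [this]
    · exact Dfn.mem (hM.base.pair' (DfnF.proj 0) (DfnF.proj 1)) (gph' hM hM.kd (partrec_tot hf))
  refine h1.congr fun v _ => ?_
  constructor
  · rintro ⟨hx, n, hn, h0, h⟩
    obtain ⟨x, hx'⟩ := mem_omega_iff.1 hx
    obtain ⟨n, rfl⟩ := mem_omega_iff.1 hn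
    rw [hx', mem_tot] at h
    exact ⟨n, (hφ n).1 h0, by rw [hx', h]⟩
  · rintro ⟨n, hn, h⟩
    rw [h]
    exact ⟨mem_omega_iff.2 ⟨_, rfl⟩, nat n, mem_omega_iff.2 ⟨_, rfl⟩, (hφ n).2 hn, mem_tot.2 rfl⟩

/-- Sets that are definable over the hereditarily countable sets are definable over all larger
classes `HH c`. -/
theorem DefAt.mono {C : ℕ → Prop} (hC : DefAt ℵ₀ C) (hω : ℵ₀ ≤ c) : DefAt c C := by
  obtain ⟨φ, hφ⟩ := hC
  have hM := full_HH hω
  obtain ⟨ψ, hψ⟩ := dfn_iff.1 (dfn_rel (hc_sub hM) (dfn_hc hM) φ)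
  refine ⟨ψ, fun n => ?_⟩
  rw [hψ, hφ]
  intro i
  fin_cases i
  exact hM.nat_mem n

/-- The set of the numbers `cmpn k n`, for a definable set of numbers `n`, is definable. -/
theorem dfn_CC_df (hω : ℵ₀ ≤ c) {C : ℕ → Prop} (hC : DefAt c C) (k : ℕ) :
    Dfn ∅ (HH c) fun v : Fin 1 → ZFSet.{0} => v 0 = CC C k := by
  have hM := full_HH hω
  have hcmp : Computable (cmpn k) := by
    have h1 : Primrec (cmpn k) := by
      unfold cmpn
      exact (Primrec₂.natPair.comp (Primrec.const 8) (Primrec₂.natPair.comp (Primrec.const 0)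
        (Primrec₂.natPair.comp (Primrec.const 8) (Primrec₂.natPair.comp (Primrec.const 1)
          (Primrec₂.natPair.comp (Primrec.const 4) (Primrec₂.natPair.comp (Primrec.const k)
            Primrec.id))))))
    exact h1.to_comp
  have h1 : CC C k = ZFSet.sep (fun x => ∃ n, C n ∧ x = nat (cmpn k n)) ZFSet.omega := rfl
  rw [h1]
  apply Dfn.eq (DfnF.proj 0)
  exact hM.sep' (Q := fun x _ => ∃ n, C n ∧ x = nat (cmpn k n)) hM.omega'
    ((dfn_image hω hC hcmp).comp ![0])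

end

variable {m : ℕ} {ar : Fin m → ℕ}

/-- The theory has a definable axiomatization: it has the same models as some set of sentences
whose Goedel numbers form a set that is definable without parameters over `HH #A`, for each
infinite model `A`. -/
def DefAx (T : Set (SOF ar)) : Prop :=
  ∃ T' : Set (SOF ar), IsTheory T' ∧
    (∀ A : Struc ar, ModelsT A T → ℵ₀ ≤ #A.Dom → DefAt #A.Dom fun n : ℕ => ∃ φ ∈ T', φ.code = n) ∧
    ∀ A : Struc ar, ModelsT A T ↔ ModelsT A T'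

section

variable {c : Cardinal.{0}} {lt : ZFSet.{0} → ZFSet.{0} → Prop}

/-- Models of the same infinite cardinality are isomorphic. -/
theorem same_card_df {T : Set (SOF ar)} (hc : CompleteT T) (hr : DefAx T) (hω : ℵ₀ ≤ c)
    (hS : Setg c (HH c) lt) {A B : Struc ar} (hA : ModelsT A T) (hB : ModelsT B T)
    (hAc : #A.Dom = c) (hBc : #B.Dom = c) : Isom A B := by
  have hM := full_HH hω
  obtain ⟨T', hT', hrec, hTT⟩ := hr
  obtain ⟨a, haM, haA, ha⟩ := exists_chi hω hS.wo hAc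
  obtain ⟨b, hbM, hbB, hb⟩ := exists_chi hω hS.wo hBc
  let C : ℕ → Prop := fun n => ∃ φ ∈ T', φ.code = n
  have hCT : ∀ {A : Struc ar} {a : ZFSet.{0}}, a ∈ HH c → IsCode A a →
      ((∀ n, C n → GS (HH c) n (asd (fs a) (sn a))) ↔ ModelsT A T) := by
    intro A a haM ha
    rw [hTT]
    constructor
    · intro h φ hφ
      exact (gs_code hM ha haM (hT' φ hφ)).1 (h _ ⟨φ, hφ, rfl⟩)
    · rintro h n ⟨φ, hφ, rfl⟩
      exact (gs_code hM ha haM (hT' φ hφ)).2 (h φ hφ)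
  have key : ∀ a ∈ HH c, ∀ b ∈ HH c, Chi ar (HH c) lt a →
      (∀ n, C n → GS (HH c) n (asd (fs a) (sn a))) → Chi ar (HH c) lt b →
      (∀ n, C n → GS (HH c) n (asd (fs b) (sn b))) → ∀ R : ZFSet.{0} → Prop,
      (Dfn ∅ (HH c) fun v : Fin 1 → ZFSet.{0} => R (v 0)) → R a → R b := by
    intro a haM b hbM ha ha' hb hb' R hR hRa
    have hcA := ha.1.isCode
    have hcB := hb.1.isCode
    have hA : ModelsT _ T := (hCT haM hcA).1 ha'
    have hB : ModelsT _ T := (hCT hbM hcB).1 hb'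
    have hAc := hcA.card.symm.trans (card_of_chi hω haM ha)
    have hBc := hcB.card.symm.trans (card_of_chi hω hbM hb)
    obtain ⟨φ, hφ⟩ := dfn_iff.1 (hR.and (chi' (ar := ar) hM hS.wo (DfnF.proj 0)))
    obtain ⟨θ, hθ, hθ'⟩ := translation ar φ
    have h1 : Models (dst ar a ha.1.2.2.1) θ := by
      rw [hθ' _ (Cardinal.infinite_iff.2 (hω.trans hAc.ge)), hAc]
      refine ⟨a, haM, hcA, (hφ ![a] fun i => ?_).2 ⟨hRa, ha⟩⟩
      fin_cases i
      exact haM
    have h2 := (hc.iff hθ hA hB).1 h1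
    rw [hθ' _ (Cardinal.infinite_iff.2 (hω.trans hBc.ge)), hBc] at h2
    obtain ⟨b', hb'M, h3, h4⟩ := h2
    obtain ⟨h5, h6⟩ := (hφ ![b'] fun i => by
      fin_cases i
      exact hb'M).1 h4
    have h7 : b' = b := isCode_iff_of_chi hM hS.wo hb'M hbM h6 hb h3 hcB
    rw [← h7]
    exact h5
  have hab : a = b := by
    refine hS.unique gs_fml (χ := Chi ar (HH c) lt) (chi' hM hS.wo (DfnF.proj 0))
      (C := C) (fun k => dfn_CC_df hω (by
        have h := hrec A hA (hω.trans hAc.ge)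
        rwa [hAc] at h) k) ?_ (fun x _ hx => hx.1.1) ?_
      haM ha ((hCT haM haA).2 hA) hbM hb ((hCT hbM hbB).2 hB)
    · rintro n ⟨φ, hφ, rfl⟩ f g h0 h1
      exact GS_sentence (hT' φ hφ) h0 h1
    · intro a haM b hbM ha ha' hb hb' R hR
      exact ⟨key a haM b hbM ha ha' hb hb' R hR, key b hbM a haM hb hb' ha ha' R hR⟩
  subst hab
  exact haA.isom hbB


end

/-- Definable axiomatizations give models of one cardinality. -/
theorem card_eq_df {T : Set (SOF ar)} (hc : CompleteT T) (hr : DefAx T) {A B : Struc ar}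
    (hA : ModelsT A T) (hB : ModelsT B T) (hAi : ℵ₀ ≤ #A.Dom) (hBi : ℵ₀ ≤ #B.Dom)
    (hmin : ∀ A' : Struc ar, ModelsT A' T → ℵ₀ ≤ #A'.Dom → #A.Dom ≤ #A'.Dom)
    (hN : ∃ N0 : ZFSet.{0}, (∀ x, x ∈ N0 ↔ x ∈ HH #A.Dom) ∧ N0.card ≤ Order.succ #A.Dom) :
    #B.Dom = #A.Dom := by
  by_contra hne
  have hlt : #A.Dom < #B.Dom := lt_of_le_of_ne (hmin B hB hBi) (Ne.symm hne)
  obtain ⟨N0, hN0, hN0c⟩ := hN
  have hM1 := full_HH hAi
  have hM2 := full_HH hBi
  have hN0M : N0 ∈ HH #B.Dom := hh_of_trans hM2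
    (fun y hy z hz => (hN0 z).2 (hM1.trans ((hN0 y).1 hy) hz)) (hN0c.trans (Order.succ_le_of_lt hlt))
  obtain ⟨T', hT', hrec, hTT⟩ := hr
  let C : ℕ → Prop := fun n => ∃ φ ∈ T', φ.code = n
  obtain ⟨k0, hk0⟩ := exists_k0
  -- the truth of the numbers in the classes of sets
  have hcmp : ∀ {κ : Cardinal.{0}} {N : Set ZFSet.{0}}, Full κ N → ∀ {a : ZFSet.{0}}, a ∈ N →
      ∀ {A : Struc ar}, IsCode A a →
      ((∀ n, C n → GS N (cmpn k0 n) (asg a)) ↔ ModelsT A T) := by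
    intro κ N hN a haN A ha
    rw [hTT]
    have hp := (isCode_iff.1 ha).1
    obtain ⟨hf, hs⟩ := hN.of_pair_mem (hp ▸ haN)
    have h1 : ∀ φ ∈ T', (GS N (cmpn k0 φ.code) (asg a) ↔ Models A φ) := by
      intro φ hφ
      rw [GS_cmpn, ← gs_code hN ha haN (hT' φ hφ)]
      constructor
      · rintro ⟨D, hD, d, hd, h2, h3⟩
        rw [hk0 N hN.base.trans _ (by simpa using hD) (by simpa using hd)
          (by simpa [asg] using haN)] at h2
        have h4 : a = pair D d := by simpa [asg] using h2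
        rw [h4, fs_pair, sn_pair]
        exact (GS_sentence (hT' φ hφ) (by simp [asd]) (by simp [asd])).1 h3
      · intro h3
        refine ⟨fs a, hf, sn a, hs, ?_, ?_⟩
        · rw [hk0 N hN.base.trans _ (by simpa using hf) (by simpa using hs)
            (by simpa [asg] using haN)]
          simpa [asg] using hp
        · exact (GS_sentence (hT' φ hφ) (by simp [asd]) (by simp [asd])).1 h3
    constructor
    · intro h φ hφ
      exact (h1 φ hφ).1 (h _ ⟨φ, hφ, rfl⟩)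
    · rintro h n ⟨φ, hφ, rfl⟩
      exact (h1 φ hφ).2 (h φ hφ)
  -- the formulas
  have hJ : Dfn ∅ (HH #B.Dom) fun v : Fin 3 → ZFSet.{0} => v 0 ∈ JJ (v 1) (v 2) :=
    Dfn.mem (DfnF.proj 0) (DfnF.comp2 (f := JJ) hM2.jj (DfnF.proj 1) (DfnF.proj 2))
  obtain ⟨ψ, hψ⟩ := dfn_iff.1 hJ
  have hCC : Dfn ∅ (HH #B.Dom) fun v : Fin 1 → ZFSet.{0} => v 0 ∈ CC C k0 :=
    Dfn.mem (DfnF.proj 0) (dfnF_of_const
      (hM2.sub hM2.omega_mem fun x hx => (ZFSet.mem_sep.1 hx).1) (dfn_CC_df hBi (hrec B hB hBi) k0))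
  obtain ⟨χ, hχ⟩ := dfn_iff.1 hCC
  have hψ2 : ∀ x ∈ HH #B.Dom, ∀ N ∈ HH #B.Dom, ∀ a ∈ HH #B.Dom,
      (Sat (HH #B.Dom) Empty.elim ψ ![x, N, a] ↔ x ∈ JJ N a) := by
    intro x hx N hN a ha
    rw [hψ]
    · rfl
    · intro i
      fin_cases i
      exacts [hx, hN, ha]
  have hχ2 : ∀ x ∈ HH #B.Dom, (Sat (HH #B.Dom) Empty.elim χ ![x] ↔ x ∈ CC C k0) := by
    intro x hx
    rw [hχ]
    · rfl
    · intro i
      fin_cases i
      exact hx
  -- the formulas are correct in the smaller class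
  have hχ1 : ∀ n, C n → Sat (HH #A.Dom) Empty.elim χ ![nat (cmpn k0 n)] := by
    intro n hn
    have h1 := elem_equiv hc hA hB hAi hBi
      (R := fun M => ∀ x ∈ M, x = nat (cmpn k0 n) → Sat M Empty.elim χ ![x]) (by
        apply UD.all (Q := fun M x _ => x = nat (cmpn k0 n) → Sat M Empty.elim χ ![x])
        apply UD.imp
        · exact UD.of_D0 (D0.isNat (D0v.proj 0) _)
        · refine ((UD.sat χ).comp ![0]).congr fun M _ _ v _ => ?_
          have h2 : (fun i => v ((![0] : Fin 1 → Fin 2) i)) = ![v 0] := by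
            funext i
            fin_cases i
            rfl
          rw [h2])
    refine h1.2 (fun x hx h2 => ?_) _ (hM1.nat_mem _) rfl
    rw [hχ2 x hx, h2]
    exact mem_CC.2 ⟨n, hn, rfl⟩
  have hψ1 : ∀ n : ℕ, ∀ N ∈ HH #A.Dom, ∀ a ∈ HH #A.Dom, (∀ x ∈ N, ∀ y ∈ x, y ∈ N) → ∅ ∈ N →
      a ∈ N → Sat (HH #A.Dom) Empty.elim ψ ![nat n, N, a] → GS {x | x ∈ N} n (asg a) := by
    intro n
    obtain ⟨φ, hφ⟩ := gs_fml n
    have h1 := elem_equiv hc hA hB hAi hBi
      (R := fun M => ∀ x ∈ M, ∀ N ∈ M, ∀ a ∈ M, (x = nat n ∧ (∀ x ∈ N, ∀ y ∈ x, y ∈ N) ∧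
        (∃ e ∈ N, e = nat 0) ∧ a ∈ N) →
        Sat M Empty.elim ψ ![x, N, a] → Sat {x | x ∈ N} Empty.elim φ ![a]) (by
        apply UD.all (Q := fun M x _ => ∀ N ∈ M, ∀ a ∈ M, (x = nat n ∧
          (∀ x ∈ N, ∀ y ∈ x, y ∈ N) ∧ (∃ e ∈ N, e = nat 0) ∧ a ∈ N) →
          Sat M Empty.elim ψ ![x, N, a] → Sat {x | x ∈ N} Empty.elim φ ![a])
        apply UD.all (Q := fun M N (w : Fin 2 → ZFSet.{0}) => ∀ a ∈ M, (w 0 = nat n ∧
          (∀ x ∈ N, ∀ y ∈ x, y ∈ N) ∧ (∃ e ∈ N, e = nat 0) ∧ a ∈ N) →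
          Sat M Empty.elim ψ ![w 0, N, a] → Sat {x | x ∈ N} Empty.elim φ ![a])
        apply UD.all (Q := fun M a (w : Fin 3 → ZFSet.{0}) => (w 1 = nat n ∧
          (∀ x ∈ w 0, ∀ y ∈ x, y ∈ w 0) ∧ (∃ e ∈ w 0, e = nat 0) ∧ a ∈ w 0) →
          Sat M Empty.elim ψ ![w 1, w 0, a] → Sat {x | x ∈ w 0} Empty.elim φ ![a])
        apply UD.imp
        · apply UD.of_D0
          apply D0.and (D0.isNat (D0v.proj 2) n)
          apply D0.and
          · apply D0.ball (D0v.proj 1)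
            apply D0.ball (D0v.proj 0)
            exact D0.mem (D0v.proj 0) (D0v.proj 3)
          apply D0.and
          · apply D0.bex (D0v.proj 1)
            exact D0.isNat (D0v.proj 0) 0
          · exact D0.mem (D0v.proj 0) (D0v.proj 1)
        · apply UD.imp
          · refine ((UD.sat ψ).comp ![2, 1, 0]).congr fun M _ _ v _ => ?_
            have h2 : (fun i => v ((![2, 1, 0] : Fin 3 → Fin 4) i)) = ![v 2, v 1, v 0] := by
              funext i
              fin_cases i <;> rfl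
            rw [h2]
            rfl
          · refine ((UD.of_D0 (D0.relSat φ)).comp ![1, 0]).congr fun M _ _ v _ => ?_
            have h2 : (Fin.tail fun i => v ((![1, 0] : Fin 2 → Fin 4) i)) = ![v 0] := by
              funext i
              fin_cases i
              rfl
            rw [h2]
            rfl)
    intro N hN a ha h2 h3 h4 h5
    rw [← hφ {x | x ∈ N} h2 h3 a h4]
    refine h1.2 (fun x hx N hN a ha h6 h7 => ?_) _ (hM1.nat_mem n) N hN a ha
      ⟨rfl, h2, ⟨_, h3, rfl⟩, h4⟩ h5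
    obtain ⟨rfl, h8, ⟨e, h9, rfl⟩, h10⟩ := h6
    rw [hψ2 _ hx N hN a ha] at h7
    rw [hφ {x | x ∈ N} h8 h9 a h10]
    exact nat_mem_JS.1 h7
  -- the description of the models in the small classes
  have hσ := elem_equiv hc hA hB hAi hBi
    (R := fun M => ∃ N ∈ M, ∃ D ∈ M, ∃ d ∈ M, ∃ a ∈ M, (P0 ar a d D N ∧ Q0 M D N) ∧
      ∀ x ∈ M, Sat M Empty.elim χ ![x] → Sat M Empty.elim ψ ![x, N, a]) (by
      apply UD.ex (Q := fun M N _ => ∃ D ∈ M, ∃ d ∈ M, ∃ a ∈ M, (P0 ar a d D N ∧ Q0 M D N) ∧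
        ∀ x ∈ M, Sat M Empty.elim χ ![x] → Sat M Empty.elim ψ ![x, N, a])
      apply UD.ex (Q := fun M D (w : Fin 2 → ZFSet.{0}) => ∃ d ∈ M, ∃ a ∈ M,
        (P0 ar a d D (w 0) ∧ Q0 M D (w 0)) ∧
        ∀ x ∈ M, Sat M Empty.elim χ ![x] → Sat M Empty.elim ψ ![x, w 0, a])
      apply UD.ex (Q := fun M d (w : Fin 3 → ZFSet.{0}) => ∃ a ∈ M,
        (P0 ar a d (w 0) (w 1) ∧ Q0 M (w 0) (w 1)) ∧
        ∀ x ∈ M, Sat M Empty.elim χ ![x] → Sat M Empty.elim ψ ![x, w 1, a])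
      apply UD.ex (Q := fun M a (w : Fin 4 → ZFSet.{0}) =>
        (P0 ar a (w 0) (w 1) (w 2) ∧ Q0 M (w 1) (w 2)) ∧
        ∀ x ∈ M, Sat M Empty.elim χ ![x] → Sat M Empty.elim ψ ![x, w 2, a])
      apply UD.and
      · apply UD.and
        · exact (UD.of_D0 d0_P0).comp ![0, 1, 2, 3]
        · exact ud_Q0.comp ![2, 3]
      · apply UD.all (Q := fun M x (w : Fin 5 → ZFSet.{0}) =>
          Sat M Empty.elim χ ![x] → Sat M Empty.elim ψ ![x, w 3, w 0])
        apply UD.imp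
        · refine ((UD.sat χ).comp ![0]).congr fun M _ _ v _ => ?_
          have h2 : (fun i => v ((![0] : Fin 1 → Fin 6) i)) = ![v 0] := by
            funext i
            fin_cases i
            rfl
          rw [h2]
        · refine ((UD.sat ψ).comp ![0, 4, 1]).congr fun M _ _ v _ => ?_
          have h2 : (fun i => v ((![0, 4, 1] : Fin 3 → Fin 6) i)) = ![v 0, v 4, v 1] := by
            funext i
            fin_cases i <;> rfl
          rw [h2]
          rfl)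
  -- it holds in the larger class
  obtain ⟨a0, ha0, hca0⟩ := exists_code_hh A hAi
  have hw0 := hca0.wfc
  have hf0 : fs a0 ∈ HH #A.Dom := fs_mem hM1 ha0 hw0
  have hs0 : sn a0 ∈ HH #A.Dom := (hM1.of_pair_mem (hw0.1 ▸ ha0)).2
  have hup : ∀ {x}, x ∈ HH #A.Dom → x ∈ HH #B.Dom := fun hx => hM2.trans hN0M ((hN0 _).2 hx)
  have hset : {x | x ∈ N0} = HH #A.Dom := Set.ext fun x => hN0 x
  have h2 : ∃ N ∈ HH #A.Dom, ∃ D ∈ HH #A.Dom, ∃ d ∈ HH #A.Dom, ∃ a ∈ HH #A.Dom,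
      (P0 ar a d D N ∧ Q0 (HH #A.Dom) D N) ∧ ∀ x ∈ HH #A.Dom,
      Sat (HH #A.Dom) Empty.elim χ ![x] → Sat (HH #A.Dom) Empty.elim ψ ![x, N, a] := by
    refine hσ.2 ⟨N0, hN0M, fs a0, hup hf0, sn a0, hup hs0, a0, hup ha0, ⟨⟨hw0.1, (hN0 _).2 ha0,
      ⟨ZFSet.omega, (hN0 _).2 hM1.omega_mem, ⟨_, ZFSet.omega_zero, rfl⟩, fun z hz => ?_⟩,
      hw0.2.1, ?_, fun p hp => ?_⟩, fun x hx => ⟨fun hx' => ?_, fun h3 h4 => ?_⟩⟩,
      fun x hx hx' => ?_⟩
    · exact ⟨_, ZFSet.omega_succ hz, ZFSet.mem_insert _ _⟩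
    · obtain ⟨x, hx⟩ := hw0.2.2.1
      exact ⟨x, hx, rfl⟩
    · obtain ⟨r, h3, h4⟩ := hw0.2.2.2 p hp
      exact ⟨_, _, h3, r, rfl, h4⟩
    · refine ⟨fun y hy => (hN0 y).2 (hM1.trans ((hN0 x).1 hx') hy), ?_⟩
      obtain ⟨f, hf, hf'⟩ := exists_ij (x := x) (D := fs a0) (by
        rw [hca0.card]
        exact hM1.card ((hN0 x).1 hx'))
      exact ⟨f, hM2.sub (hM2.prod_mem hx (hup hf0)) hf', hf⟩
    · obtain ⟨f, -, hf⟩ := h4
      refine (hN0 x).2 ((hM1.iff x).2 ⟨fun y hy => (hN0 y).1 (h3 y hy), ?_⟩)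
      rw [← hca0.card]
      exact card_le_of_ij hf
    · rw [hχ2 x hx] at hx'
      rw [hψ2 x hx N0 hN0M a0 (hup ha0)]
      obtain ⟨n, hn, rfl⟩ := mem_CC.1 hx'
      refine nat_mem_JS.2 ?_
      rw [hset]
      exact (hcmp hM1 ha0 hca0).2 hA n hn
  -- it fails in the smaller class
  obtain ⟨N, hN, D, hD, d, hd, a, ha, ⟨hP, hQ⟩, hS⟩ := h2
  have hfull : Full D.card {x | x ∈ N} := by
    refine hQ.full hM1 hD hN ?_
    obtain ⟨-, -, ⟨w, hw, ⟨z, hz, -⟩, h3⟩, -⟩ := hP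
    exact ⟨w, hw, infinite_of_no_max ⟨z, hz⟩ h3⟩
  have haN : a ∈ N := hP.2.1
  have hDN : D ∈ N := (hfull.of_pair_mem (M := {x | x ∈ N}) (x := D) (y := d)
    (by rw [← hP.1]; exact haN)).1
  have hcode := hP.wfc.isCode
  have hmod : ModelsT (dst ar a hP.wfc.2.2.1) T := by
    refine (hcmp hfull haN hcode).1 fun n hn => ?_
    exact hψ1 _ N hN a ha hfull.base.trans hfull.empty_mem haN
      (hS _ (hM1.nat_mem _) (hχ1 n hn))
  have hDc : D.card = #(dst ar a hP.wfc.2.2.1).Dom := by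
    rw [← hcode.card, hP.1, fs_pair]
  have h3 := hmin _ hmod (hDc ▸ hfull.inf)
  rw [← hDc] at h3
  have h4 : ZFSet.powerset D ⊆ N := fun y hy => hfull.sub hDN (ZFSet.mem_powerset.1 hy)
  have h5 := (ZFSet.card_mono h4).trans (hM1.card hN)
  rw [ZFSet.card_powerset] at h5
  exact absurd (h5.trans h3) (not_le.2 (Cardinal.cantor _))


/-- Categoricity from the fine structure of the small classes. -/
theorem categorical_of_df {T : Set (SOF ar)} (hc : CompleteT T) (hr : DefAx T)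
    (h : ∀ c : Cardinal.{0}, ℵ₀ ≤ c → (∀ A : Struc ar, ModelsT A T → ℵ₀ ≤ #A.Dom → c ≤ #A.Dom) →
      (∃ lt, Setg c (HH c) lt) ∧
      ∃ N0 : ZFSet.{0}, (∀ x, x ∈ N0 ↔ x ∈ HH c) ∧ N0.card ≤ Order.succ c) :
    CategoricalT T := by
  intro A B hA hB
  by_cases hAf : Finite A.Dom
  · exact isom_of_finite hc hA hB hAf
  by_cases hBf : Finite B.Dom
  · exact (isom_of_finite hc hB hA hBf).symm
  have hinf : ∀ {A : Struc ar}, ¬ Finite A.Dom → ℵ₀ ≤ #A.Dom := fun h =>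
    Cardinal.infinite_iff.1 (not_finite_iff_infinite.1 h)
  obtain ⟨c0, ⟨A0, hA0, hA0i, rfl⟩, hmin⟩ := WellFounded.has_min
    (wellFounded_lt (α := Cardinal.{0}))
    {c | ∃ A : Struc ar, ModelsT A T ∧ ℵ₀ ≤ #A.Dom ∧ #A.Dom = c} ⟨_, A, hA, hinf hAf, rfl⟩
  have hmin' : ∀ A' : Struc ar, ModelsT A' T → ℵ₀ ≤ #A'.Dom → #A0.Dom ≤ #A'.Dom :=
    fun A' h1 h2 => not_lt.1 (hmin _ ⟨A', h1, h2, rfl⟩)
  obtain ⟨⟨lt, hS⟩, hN⟩ := h _ hA0i hmin'
  have h1 := card_eq_df hc hr hA0 hA hA0i (hinf hAf) hmin' hN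
  have h2 := card_eq_df hc hr hA0 hB hA0i (hinf hBf) hmin' hN
  exact same_card_df hc hr hA0i hS hA hB h1 h2

/-- Categoricity, if every set is constructible. -/
theorem categorical_df (hV : VLv) {T : Set (SOF ar)} (hc : CompleteT T) (hr : DefAx T) :
    CategoricalT T := by
  refine categorical_of_df hc hr fun c hω _ => ?_
  have hL := hV.lcls hω (full_HH hω).jj
  exact ⟨⟨_, hL.setg⟩, exists_N0 hω (D := Cd) (fun _ _ _ _ h h' => h.uniq h')
    fun x hx => hL.exists_Cd hx⟩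

end Pool.Agent.K1H65.SO
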