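import Pool.Agent.K1H65.SO.An

/-!
# Definable axiomatizations in vocabularies with function symbols

The reduction to relational vocabularies is that of the starting module `R587.VocRed`; here it is
shown that it preserves definable axiomatizations.
-/

set_option autoImplicit false

namespace Pool.Agent.K1H65.SO

open Pool.Agent.R587
open Pool.Agent.W868 hiding Models
open ZFSet (pair)
open Cardinal

section

variable {c : Cardinal.{0}}

theorem defAt_of_dfn (hω : ℵ₀ ≤ c) {R : ZFSet.{0} → Prop} {C : ℕ → Prop}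
    (h : Dfn ∅ (HH c) fun v : Fin 1 → ZFSet.{0} => R (v 0)) (h' : ∀ n, R (nat n) ↔ C n) :
    DefAt c C := by
  obtain ⟨φ, hφ⟩ := dfn_iff.1 h
  refine ⟨φ, fun n => ?_⟩
  rw [hφ, ← h' n]
  · rfl
  · intro i
    fin_cases i
    exact (full_HH hω).nat_mem n

theorem DefAt.image (hω : ℵ₀ ≤ c) {C : ℕ → Prop} (hC : DefAt c C) {f : ℕ → ℕ}
    (hf : Computable f) : DefAt c fun n => ∃ k, C k ∧ n = f k := by
  refine defAt_of_dfn hω (R := fun x => ∃ n, C n ∧ x = nat (f n)) (dfn_image hω hC hf) fun n => ?_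
  refine exists_congr fun k => and_congr_right fun _ => ?_
  exact ⟨fun h => nat_injective h, fun h => by rw [h]⟩

theorem DefAt.or {C D : ℕ → Prop} (hC : DefAt c C) (hD : DefAt c D) :
    DefAt c fun n => C n ∨ D n := by
  obtain ⟨φ, hφ⟩ := hC
  obtain ⟨ψ, hψ⟩ := hD
  refine ⟨.neg (.and (.neg φ) (.neg ψ)), fun n => ?_⟩
  simp only [Sat, hφ, hψ]
  tauto

theorem defAt_true : DefAt c fun _ => True :=
  ⟨.eq (Sum.inl 0) (Sum.inl 0), fun n => by simp [Sat]⟩

theorem defAt_false : DefAt c fun _ => False :=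
  ⟨.neg (.eq (Sum.inl 0) (Sum.inl 0)), fun n => by simp [Sat]⟩

/-- Recursive sets are definable. -/
theorem defAt_of_computable (hω : ℵ₀ ≤ c) {C : ℕ → Prop} (hC : ComputablePred C) :
    DefAt c C := by
  by_cases h : ∃ c, C c
  · obtain ⟨a, ha⟩ := h
    obtain ⟨hd, hcomp⟩ := hC
    have hf : Computable fun n : ℕ => cond (decide (C n)) n a :=
      Computable.cond hcomp Computable.id (Computable.const a)
    have h1 := (defAt_true (c := c)).image hω hf
    have h2 : (fun n => ∃ k, True ∧ n = cond (decide (C k)) k a) = C := by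
      funext n
      apply propext
      constructor
      · rintro ⟨k, -, rfl⟩
        by_cases hk : C k
        · simp [hk]
        · simpa [hk] using ha
      · intro hn
        exact ⟨n, trivial, by simp [hn]⟩
    rw [h2] at h1
    exact h1
  · have h2 : (fun _ => False) = C := by
      funext n
      apply propext
      exact ⟨fun h => h.elim, fun hn => h ⟨n, hn⟩⟩
    rw [← h2]
    exact defAt_false

end

variable {m l : ℕ} {ar : Fin m → ℕ} {af : Fin l → ℕ}

/-- The theory (in a finite vocabulary with relation, function and constant symbols) has a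
definable axiomatization: it has the same models as some set of sentences whose Goedel numbers
form a set that is definable without parameters over `HH #A`, for each infinite model `A`. -/
def VDefAx (T : Set (Voc.Fo ar af)) : Prop :=
  ∃ T' : Set (Voc.Fo ar af), Voc.IsTheory T' ∧
    (∀ A : Voc.St ar af, Voc.ModelsT A T → ℵ₀ ≤ #A.Dom →
      DefAt #A.Dom fun n : ℕ => ∃ φ ∈ T', φ.code = n) ∧
    ∀ A : Voc.St ar af, Voc.ModelsT A T ↔ Voc.ModelsT A T'

/-- The theory is analytically axiomatized: it has the same models as some set of sentences whose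
Goedel numbers form an analytical set, i.e. a set that is definable without parameters over the
class `HH ℵ₀` of the hereditarily countable sets. -/
def VAnAx (T : Set (Voc.Fo ar af)) : Prop :=
  ∃ T' : Set (Voc.Fo ar af), Voc.IsTheory T' ∧ (DefAt ℵ₀ fun n : ℕ => ∃ φ ∈ T', φ.code = n) ∧
    ∀ A : Voc.St ar af, Voc.ModelsT A T ↔ Voc.ModelsT A T'

/-- Recursively axiomatized theories are analytically axiomatized. -/
theorem vAnAx_of_recAx {T : Set (Voc.Fo ar af)} (h : Voc.RecAx T) : VAnAx T := by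
  obtain ⟨T', h1, h2, h3⟩ := h
  exact ⟨T', h1, defAt_of_computable le_rfl h2, h3⟩

/-- Analytically axiomatized theories have a definable axiomatization. -/
theorem vDefAx_of_vAnAx {T : Set (Voc.Fo ar af)} (h : VAnAx T) : VDefAx T := by
  obtain ⟨T', h1, h2, h3⟩ := h
  exact ⟨T', h1, fun A _ hA => h2.mono hA, h3⟩

theorem defAt_thy {c : Cardinal.{0}} (hω : ℵ₀ ≤ c) {T : Set (Voc.Fo ar af)}
    (h : DefAt c fun n : ℕ => ∃ φ ∈ T, φ.code = n) :
    DefAt c fun n : ℕ => ∃ φ ∈ Voc.thy T, φ.code = n := by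
  have h1 := h.image hω (Voc.primrec_thc m).to_comp
  have h2 : DefAt c fun n => n ∈ List.ofFn fun j => (Voc.fj ar af j).code :=
    defAt_of_computable hω (Voc.primrecPred_mem _).computablePred
  have h3 := h1.or h2
  have h4 : (fun n => (∃ k, (∃ φ ∈ T, φ.code = k) ∧ n = Voc.thc m k) ∨
      n ∈ List.ofFn fun j => (Voc.fj ar af j).code) = fun n => ∃ φ ∈ Voc.thy T, φ.code = n := by
    funext n
    apply propext
    rw [List.mem_ofFn]
    constructor
    · rintro (⟨k, ⟨φ, hφ, rfl⟩, rfl⟩ | ⟨j, hj⟩)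
      · exact ⟨Voc.th φ, Or.inr ⟨φ, hφ, rfl⟩, (Voc.thc_code φ).symm⟩
      · exact ⟨Voc.fj ar af j, Or.inl ⟨j, rfl⟩, hj⟩
    · rintro ⟨χ, ⟨j, rfl⟩ | ⟨φ, hφ, rfl⟩, rfl⟩
      · exact Or.inr ⟨j, rfl⟩
      · exact Or.inl ⟨φ.code, ⟨φ, hφ, rfl⟩, (Voc.thc_code φ).symm⟩
  rw [h4] at h3
  exact h3

/-- **The reduction to relational vocabularies.** -/
theorem reduce_df {T : Set (Voc.Fo ar af)} (hc : Voc.CompleteT T) (hr : VDefAx T) :
    ∃ T' : Set (SOF (Voc.arr ar af)), CompleteT T' ∧ DefAx T' ∧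
      (CategoricalT T' → Voc.CategoricalT T) := by
  obtain ⟨T1, hT1, hcmp, hm⟩ := hr
  have h1 : ∀ A : Voc.St ar af, ModelsT (Voc.toRel A) (Voc.thy T1) ↔ Voc.ModelsT A T :=
    fun A => by rw [Voc.modelsT_thy, hm]
  have h2 : ∀ B : Struc (Voc.arr ar af), ModelsT B (Voc.thy T1) →
      ∃ A : Voc.St ar af, Voc.ModelsT A T ∧ Voc.toRel A = B := fun B hB => by
    obtain ⟨A, hA, e⟩ := Voc.exists_of_modelsT_thy hB
    exact ⟨A, (hm A).2 hA, e⟩
  refine ⟨Voc.thy T1, ⟨?_, fun ψ hψ => ?_⟩, ⟨Voc.thy T1, Voc.isTheory_thy hT1, ?_,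
    fun _ => Iff.rfl⟩, ?_⟩
  · obtain ⟨A, hA⟩ := hc.1
    exact ⟨Voc.toRel A, (h1 A).2 hA⟩
  · rcases hc.2 (Voc.bt ψ) (Voc.sentence_bt hψ) with h | h
    · left
      intro B hB
      obtain ⟨A, hA, rfl⟩ := h2 B hB
      exact Voc.models_bt.1 (h A hA)
    · right
      intro B hB
      obtain ⟨A, hA, rfl⟩ := h2 B hB
      exact Voc.models_bt.1 (h A hA)
  · intro B hB hBω
    obtain ⟨A, hA, rfl⟩ := h2 B hB
    exact defAt_thy hBω (hcmp A hA hBω)
  · intro hcat A A' hA hA'
    obtain ⟨e, he⟩ := hcat (Voc.toRel A) (Voc.toRel A') ((h1 A).2 hA) ((h1 A').2 hA')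
    refine ⟨e, fun r x => ?_, fun j x => ?_⟩
    · have h := he (Fin.castAdd l r) fun i => x (Fin.cast (Voc.arr_left r) i)
      rw [Voc.toRel_left, Voc.toRel_left] at h
      exact h
    · have h := he (Fin.natAdd m j) fun i => Fin.snoc (α := fun _ => A.Dom) x (A.F j x)
        (Fin.cast (Voc.arr_right j) i)
      have h3 : Voc.Gr (Voc.toRel A) j x (A.F j x) := Voc.Gr_toRel.2 rfl
      have h4 := h.1 h3
      have h5 : (fun i => e (Fin.snoc (α := fun _ => A.Dom) x (A.F j x)
          (Fin.cast (Voc.arr_right (ar := ar) j) i))) = fun i =>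
          Fin.snoc (α := fun _ => A'.Dom) (fun i => e (x i)) (e (A.F j x))
            (Fin.cast (Voc.arr_right (ar := ar) j) i) := by
        funext i
        refine Fin.lastCases ?_ (fun i => ?_) (Fin.cast (Voc.arr_right (ar := ar) j) i)
        · rw [Fin.snoc_last, Fin.snoc_last]
        · rw [Fin.snoc_castSucc, Fin.snoc_castSucc]
      rw [h5] at h4
      exact (Voc.Gr_toRel.1 h4).symm

/-- **Categoricity under `V = L`, definable axiomatizations.** -/
theorem categorical_VL (hV : VL) {T : Set (Voc.Fo ar af)} (hc : Voc.CompleteT T)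
    (hr : VDefAx T) : Voc.CategoricalT T := by
  obtain ⟨T', h1, h2, h3⟩ := reduce_df hc hr
  exact h3 (categorical_df hV.vlv h1 h2)

end Pool.Agent.K1H65.SO
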